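import Pool.Agent.H752.GM.Stubs
import Pool.Agent.H620R2.GaugeR.R8
import Pool.Agent.H620R2.Gauge.A1
import Pool.Agent.H620R2.GaugeR.Seq

/-!
# Task M7: many oracles with `P ≠ ZPP`
-/

namespace Pool.Agent.H752.GM

open Pool.Agent.NPC Pool.Agent.H620R2.Gauge Finset H568R2 MeasureTheory

/-- a string of the block of `x` is the pair of `x` and another string -/
theorem mem_blk_pair992 {x y : List Bool} (h : y ∈ blk x) :
    ∃ v : List Bool, y = pairBits x v := by
  rcases h with ⟨v, _, rfl⟩ | ⟨i, _, rfl⟩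
  · exact ⟨v, rfl⟩
  · exact ⟨_, rfl⟩

theorem blk_fst992 {x x' y : List Bool} (h : y ∈ blk x) (h' : y ∈ blk x') : x = x' := by
  obtain ⟨v, rfl⟩ := mem_blk_pair992 h
  obtain ⟨v', h2⟩ := mem_blk_pair992 h'
  have h3 := congrArg unpair h2
  rw [unpair_pairBits, unpair_pairBits] at h3
  exact (Prod.ext_iff.1 h3).1

theorem t_zpp (h2 : St_stage) (h3 : St_mark) (h4 : St_seq) (h5 : St_zmem) (h6 : St_zmod) :
    St_zpp := by
  classical
  intro f hf
  have hne : Nonempty Alg := by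
    obtain ⟨M, _⟩ := IsFP.of_poly (A := fun _ => false) (F := fun x => x) Poly.id
    exact ⟨M⟩
  obtain ⟨g, hg⟩ := exists_surjective_nat Alg
  choose P Q hPQ using fun e : ℕ => h6 (g e)
  obtain ⟨x, hx, hP, hQ, c, hc⟩ := h4 f hf P Q
  have hlen : ∀ i j, i < j → ∀ y ∈ blk (x j), 2 * (x (i + 1)).length < y.length := by
    intro i j hij y hy
    obtain ⟨v, rfl⟩ := mem_blk_pair992 hy
    rw [length_pairBits]
    have h7 : (x (i + 1)).length ≤ (x j).length := hx.monotone (Nat.succ_le_of_lt hij)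
    omega
  have hdis : ∀ i j, i ≠ j → ∀ y, y ∈ blk (x i) → y ∉ blk (x j) := by
    intro i j hij y hy hy'
    have h7 := blk_fst992 hy hy'
    exact hij (hx.injective (congrArg List.length h7))
  obtain ⟨Φ, hΦ⟩ := h2 (fun j => blk (x j)) (fun j A => ReqZ (g j) A (x j))
    (fun j => 2 * (x (j + 1)).length) hlen
    (fun i j hij => Set.disjoint_left.2 (fun y hy hy' => hdis i j hij.ne y hy hy'))
    (fun j A A' hA hR => (hPQ j (x j)).2 A A' (fun y hy => hA y (hy.trans (hQ j))) hR)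
    (fun j A => (hPQ j (x j)).1 (hP j) A)
  refine not_null_of f {B | ∀ x, ¬ Marked B x} h3 Φ {y | ∃ j, y ∈ blk (x j)}
    (fun B y hy => (hΦ B).1 y (fun j hj => hy ⟨j, hj⟩)) c hc _ ?_
  intro B hB
  have hz := h5 (Φ B) (by
    intro y hy
    by_cases h : ∃ j, y = x j
    · obtain ⟨j, rfl⟩ := h
      exact ((hΦ B).2 j).2.1
    · exfalso
      apply hB y
      intro i hi
      rw [← hy i hi]
      symm
      apply (hΦ B).1
      intro j hj
      have h7 : mkS y i ∈ blk y := Or.inr ⟨i, hi, rfl⟩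
      exact h ⟨j, blk_fst992 h7 hj⟩)
  refine ⟨zLang (Φ B), hz.1, hz.2, ?_⟩
  rintro ⟨V, ⟨M, hM⟩, hV⟩
  obtain ⟨j, rfl⟩ := hg M
  apply ((hΦ B).2 j).2.2
  rw [hM, Option.some.injEq]
  exact (hV _).symm

end Pool.Agent.H752.GM
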